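import Pool.Agent.H365.TF.Stm2

/-! Project TF2 (helper365): `S_VSUB`, virtually residually `ℓ` passes to subgroups. -/

set_option autoImplicit false

namespace Pool.Agent.H365.TF

theorem VSUB.dvd {T : Type} [Group T] (M N K : Subgroup T) [M.Normal] (hK : K ≤ N) :
    M.relIndex K ∣ M.relIndex N := by
  have h1 : (M.subgroupOf N).relIndex (K.subgroupOf N) = M.relIndex K :=
    Subgroup.relIndex_subgroupOf hK
  rw [← h1]
  exact Subgroup.relIndex_dvd_index_of_normal (M.subgroupOf N) (K.subgroupOf N)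

theorem t_VSUB : S_VSUB := by
  intro ℓ hℓ T _ N G hV
  obtain ⟨hN, hF, hS⟩ := hV
  refine ⟨inferInstance, inferInstance, ?_⟩
  intro S h1
  classical
  obtain ⟨M, hM, hMF, hMN, ⟨k, hk⟩, hMS⟩ := hS (S.image (fun g : G => (g : T))) (by
    intro h
    obtain ⟨g, hg, hg1⟩ := Finset.mem_image.mp h
    have : g = 1 := Subtype.ext hg1
    exact h1 (this ▸ hg))
  refine ⟨M.subgroupOf G, inferInstance, inferInstance, ?_, ?_, ?_⟩
  · intro x hx
    exact Subgroup.mem_subgroupOf.mpr (hMN (Subgroup.mem_subgroupOf.mp hx))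
  · have e1 : (M.subgroupOf G).relIndex (N.subgroupOf G) = M.relIndex (N ⊓ G) := by
      have e2 : N.subgroupOf G = (N ⊓ G).subgroupOf G := (Subgroup.inf_subgroupOf_right N G).symm
      rw [e2]
      exact Subgroup.relIndex_subgroupOf inf_le_right
    have e3 : M.relIndex (N ⊓ G) ∣ ℓ ^ k := by
      rw [← hk]
      exact VSUB.dvd M N (N ⊓ G) inf_le_left
    obtain ⟨m, _, hm⟩ := (Nat.dvd_prime_pow hℓ.out).mp e3
    exact ⟨m, e1.trans hm⟩
  · intro s hs hsM
    exact hMS s (Finset.mem_image.mpr ⟨s, hs, rfl⟩) (Subgroup.mem_subgroupOf.mp hsM)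

end Pool.Agent.H365.TF
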